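import Pool.Agent.H.MP_3ca1b2_co.D
import Pool.Agent.H.MP_3ca1b2_co.T

namespace Pool.Agent.Results.MP_3ca1b2_co.Gap
open Pool.Agent.H.MP_3ca1b2_co Equiv

instance : DecidablePred (· ∈ S9) := fun p => by unfold S9; exact inferInstanceAs (Decidable (_ ∈ (_ : List _)))

theorem T3 : (List.range 243).all (fun m => (List.range 10).all fun e => (List.range 9).all fun l =>
    (opt m).testBit (9 * e + l) == (pv l (m / 3 ^ (eu e).val % 3) == m / 3 ^ (ev e).val % 3))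
    = true := by decide +kernel

theorem T4 : (List.range 1024).all (fun m => (List.range 10).all fun e => (List.range 9).all fun l =>
    (cot m).testBit (9 * e + l) == !(pv l (m / 4 ^ (eu e).val % 4) == m / 4 ^ (ev e).val % 4))
    = true := by decide +kernel

def idx (p : Perm (Fin 4)) : ℕ :=
  ((List.range 9).find? fun l => ∀ x : Fin 4, (p x).val = pv l x).getD 0

theorem idx_spec : ∀ p : Perm (Fin 4), idx p < 9 ∧ (p ∈ S9 → (∀ x : Fin 4, (p x).val = pv (idx p) x) ∧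
    p⁻¹ ∈ S9 ∧ (p 0 = 0 → idx p = 0 ∨ idx p⁻¹ = 0)) := by decide +kernel

theorem edges : ∀ e < 10, eu e ≠ ev e := by decide
theorem edges' : ∀ u v : Fin 5, u ≠ v → ∃ e < 10, (eu e = u ∧ ev e = v) ∨ (eu e = v ∧ ev e = u) := by
  decide

theorem act_eq {p : Perm (Fin 4)} (hp : p ∈ S9) {x : ℕ} (hx : x < 4) : act p x = pv (idx p) x := by
  rw [act, dif_pos hx]; exact ((idx_spec p).2 hp).1 ⟨x, hx⟩

theorem act_inv (p : Perm (Fin 4)) {x y : ℕ} (h : act p⁻¹ x = y) : act p y = x := by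
  unfold act at h ⊢
  split_ifs at h with h1
  · subst h; simp
  · subst h; rw [dif_neg h1]

theorem enc (c : Fin 5 → Fin 4) :
    ∃ m : ℕ, m < 1024 ∧ ∀ v : Fin 5, m / 4 ^ v.val % 4 = (c v).val := by
  refine ⟨(c 0).val + 4 * (c 1).val + 16 * (c 2).val + 64 * (c 3).val + 256 * (c 4).val,
    by omega, fun v => ?_⟩
  fin_cases v <;> simp <;> omega

theorem core (σ : Fin 5 → Fin 5 → Perm (Fin 4)) (hs : IsSig S9 ⊤ σ) (h3 : ¬ Col ⊤ σ 3)
    (h4 : Col ⊤ σ 4) : idx (σ 0 1) ≠ 0 := by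
  refine top (t := fun e => idx (σ (eu e) (ev e))) ⟨fun e => (idx_spec _).1, fun m hm => ?_, ?_⟩
  · by_contra hn
    push Not at hn
    have key : ∀ e < 10, act (σ (eu e) (ev e)) (m / 3 ^ (eu e).val % 3) ≠ m / 3 ^ (ev e).val % 3 := by
      intro e he h
      have := List.all_eq_true.1 (List.all_eq_true.1 (List.all_eq_true.1 T3 m (by simpa)) e
        (by simpa)) _ (List.mem_range.2 (idx_spec (σ (eu e) (ev e))).1)
      rw [act_eq (hs _ _ (edges e he)).1 (by omega)] at h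
      exact hn e he (by simpa [h] using this)
    refine h3 ⟨fun v => m / 3 ^ v.val % 3, fun v => Nat.mod_lt _ (by omega), fun u v huv => ?_⟩
    obtain ⟨e, he, ⟨rfl, rfl⟩ | ⟨rfl, rfl⟩⟩ := edges' u v huv
    · exact key e he
    · rw [(hs _ _ (edges e he)).2]
      exact fun h => key e he (act_inv _ h)
  · obtain ⟨c, hc, h⟩ := h4
    obtain ⟨m, hm, hm'⟩ := enc fun v => ⟨c v, hc v⟩
    refine ⟨m, hm, fun e he => ?_⟩
    have := List.all_eq_true.1 (List.all_eq_true.1 (List.all_eq_true.1 T4 m (by simpa)) e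
      (by simpa)) _ (List.mem_range.2 (idx_spec (σ (eu e) (ev e))).1)
    have h1 := h _ _ (edges e he)
    rw [act_eq (hs _ _ (edges e he)).1 (hc _)] at h1
    rw [hm', hm'] at this
    rw [beq_false_of_ne h1] at this
    simpa using this

theorem move (σ : Fin 5 → Fin 5 → Perm (Fin 4)) (hs : IsSig S9 ⊤ σ) (h3 : ¬ Col ⊤ σ 3)
    (h4 : Col ⊤ σ 4) (u v : Fin 5) (huv : u ≠ v) : idx (σ u v) ≠ 0 := by
  set p : Perm (Fin 5) := swap 0 u * swap 1 (swap 0 u v) with hp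
  have p0 : p 0 = u := by revert huv; rw [hp]; revert u v; decide
  have p1 : p 1 = v := by simp [hp]
  rw [← p0, ← p1]
  refine core (fun a b => σ (p a) (p b)) (fun a b hab => hs _ _ (p.injective.ne hab)) ?_ ?_
  · rintro ⟨c, hc, h⟩
    refine h3 ⟨fun a => c (p.symm a), fun _ => hc _, fun a b hab => ?_⟩
    simpa using h _ _ (p.symm.injective.ne hab)
  · obtain ⟨c, hc, h⟩ := h4
    exact ⟨fun a => c (p a), fun _ => hc _, fun a b hab => h _ _ (p.injective.ne hab)⟩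

def g : Fin 5 → Perm (Fin 4) := ![1, swap 1 3 * swap 1 2, swap 1 2 * swap 1 3, swap 0 1,
  swap 0 3 * swap 0 2 * swap 0 1]

theorem g1 : ∀ u v : Fin 5, u ≠ v → g v * (g u)⁻¹ ∈ S9 := by decide +kernel
theorem g3 : ∀ u v : Fin 5, u ≠ v →
    act (g v * (g u)⁻¹) (![0, 2, 1, 3, 4] u) ≠ ![0, 2, 1, 3, 4] v := by decide +kernel

theorem result : S9.Nonempty ∧ (∀ p ∈ S9, p⁻¹ ∈ S9) ∧
    1 ∈ Spec S9 (⊤ : SimpleGraph (Fin 5)) ∧ 5 ∈ Spec S9 (⊤ : SimpleGraph (Fin 5)) ∧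
    4 ∉ Spec S9 (⊤ : SimpleGraph (Fin 5)) := by
  refine ⟨⟨swap 0 1, by decide⟩, fun p hp => ((idx_spec p).2 hp).2.1, ?_, ?_, ?_⟩
  · have a1 : swap (0 : Fin 4) 1 ∈ S9 := by decide
    have a2 : act (swap (0 : Fin 4) 1) 0 ≠ 0 := by decide
    exact ⟨fun _ _ => swap 0 1, fun _ _ _ => ⟨a1, by simp⟩,
      ⟨one_pos, fun _ => 0, fun _ => one_pos, fun _ _ _ => a2⟩, fun j hj => hj.1⟩
  · refine ⟨fun u v => g v * (g u)⁻¹, fun u v h => ⟨g1 u v h, by simp⟩,
      ⟨by omega, ![0, 2, 1, 3, 4], by decide, g3⟩, ?_⟩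
    rintro j ⟨-, c, hc, h⟩
    by_contra hj
    have hc4 : ∀ v, c v < 4 := fun v => by have := hc v; omega
    obtain ⟨u, v, huv, e⟩ := Fintype.exists_ne_map_eq_of_card_lt
      (fun v : Fin 5 => (g v)⁻¹ ⟨c v, hc4 v⟩) (by simp)
    refine h u v huv ?_
    simp only [act, dif_pos (hc4 u), Perm.mul_apply, e]
    simp
  · rintro ⟨σ, hs, ⟨-, h4⟩, hmin⟩
    have h3 : ¬ Col ⊤ σ 3 := fun h => by have := hmin ⟨by omega, h⟩; omega
    refine h3 ⟨fun _ => 0, fun _ => Nat.succ_pos _, fun u v huv h => ?_⟩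
    have h0 : σ u v 0 = 0 := Fin.ext (by simpa [act] using h)
    rcases ((idx_spec _).2 (hs u v huv).1).2.2 h0 with h1 | h1
    · exact move σ hs h3 h4 u v huv h1
    · exact move σ hs h3 h4 v u huv.symm (by rw [(hs u v huv).2]; exact h1)

end Pool.Agent.Results.MP_3ca1b2_co.Gap
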